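import Pool.Agent.Q150.LK.HS1A
import Pool.Agent.Q283.EN.Stm

/-!
# Project EN (helper283), job HS1A2: Artin's law of reciprocity for `F(√c)`, `i ∈ F`

The proof is that of `Pool.Agent.Q150.LK.hs1a_of`, with the absence of real places as a hypothesis.
-/

set_option autoImplicit false
set_option linter.unusedSectionVars false

namespace Pool.Agent.Q68.EN

open NumberField IsDedekindDomain Finset Polynomial
open Pool.Agent.Q7.LK Pool.Agent.Q92.AR Pool.Agent.Q20.EX Pool.Agent.Q150.LK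

/-- no real places if `i ∈ F` -/
theorem no_real_i {F : Type} [Field F] [NumberField F] {i : F} (hi : i ^ 2 = -1) (x : F) : Pos x := by
  intro φ
  exfalso
  have h1 : (φ i) ^ 2 = -1 := by rw [← map_pow, hi, map_neg, map_one]
  have h2 := sq_nonneg (φ i)
  rw [h1] at h2
  linarith

/-- Artin reciprocity for Kummer extensions of degree `p` without a condition of positivity -/
theorem hs1a_gen (hAR : S_AR) (hNRM : Pool.Agent.Q20.EX.S_NRM) (hG : S_GOOD) (hB : S_BAS) {p : ℕ}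
    [Fact p.Prime] {F : Type} [Field F] [NumberField F] {ζ : F} (hnr : ∀ x : F, Pos x)
    (hζ : IsPrimitiveRoot ζ p) : Pool.Agent.Q283.EN.P_HS1A p F ζ := by
  classical
  intro c hc0 hc
  have hp : p.Prime := Fact.out
  obtain ⟨R, hR⟩ : ∃ R : Set (HeightOneSpectrum (𝓞 F)), R = {v | Dp p v ∨ vl p v c ≠ 0} := ⟨_, rfl⟩
  have hfv : ∀ x : F, x ≠ 0 → {v : HeightOneSpectrum (𝓞 F) | vl p v x ≠ 0}.Finite := by
    intro x hx
    refine (prin (Units.mk0 x hx)).support.finite_toSet.subset fun v hv => ?_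
    rw [Finset.mem_coe, Finsupp.mem_support_iff]
    intro h0
    apply hv
    have h1 := vl_eq (p := p) v (Units.mk0 x hx)
    rw [Units.val_mk0, h0, Int.cast_zero] at h1
    exact h1
  have hRf : R.Finite := by
    have h1 : R ⊆ {v | (p : 𝓞 F) ∈ v.asIdeal} ∪ {v | vl p v c ≠ 0} := by
      rw [hR]
      rintro v (h | h)
      · exact Or.inl h
      · exact Or.inr h
    exact ((Pool.Agent.Q125.AR.finite_dvd hp.ne_zero).union (hfv c hc0)).subset h1
  refine ⟨hR ▸ hRf, ?_⟩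
  obtain ⟨M, _, _, _, hK, hgal⟩ := exists_kumfield hζ hc
  obtain ⟨r, hr⟩ := hK.root
  have hinj : Function.Injective (algebraMap F M) := (algebraMap F M).injective
  have hr0 : r ≠ 0 := by
    rintro rfl
    rw [zero_pow hp.ne_zero] at hr
    exact hc0 ((map_eq_zero _).1 hr.symm)
  obtain ⟨ι⟩ : Nonempty (M →+* ℂ) := inferInstance
  have hnz : NeZero p := ⟨hp.ne_zero⟩
  have hζM : IsPrimitiveRoot (algebraMap F M ζ) p := hζ.map_of_injective hinj
  have hfix : ∀ g h : M ≃ₐ[F] M, g (h ((Units.mk0 r hr0 : Mˣ) : M) / ((Units.mk0 r hr0 : Mˣ) : M)) =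
      h ((Units.mk0 r hr0 : Mˣ) : M) / ((Units.mk0 r hr0 : Mˣ) : M) := by
    intro g h
    rw [Units.val_mk0]
    have h1 : (h r / r) ^ p = 1 := by
      rw [div_pow, ← map_pow, hr, h.commutes, div_self ((_root_.map_ne_zero _).2 hc0)]
    obtain ⟨i, -, hi⟩ := hζM.eq_pow_of_pow_eq_one h1
    rw [← hi, map_pow, g.commutes]
  obtain ⟨ψ, hψ⟩ : ∃ ψ : (M ≃ₐ[F] M) →* ℂˣ, ∀ g, ((ψ g : ℂˣ) : ℂ) = ι (g r / r) :=
    ⟨Pool.Agent.Q16.EX.kumHom ι (Units.mk0 r hr0) hfix, fun g =>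
      Pool.Agent.Q16.EX.kumHom_apply ι (Units.mk0 r hr0) hfix g⟩
  have hζC : IsPrimitiveRoot (ι (algebraMap F M ζ)) p := hζM.map_of_injective ι.injective
  have hz0 : ι (algebraMap F M ζ) ≠ 0 := hζC.ne_zero hp.ne_zero
  obtain ⟨z, hz⟩ : ∃ z : ℂˣ, (z : ℂ) = ι (algebraMap F M ζ) := ⟨Units.mk0 _ hz0, rfl⟩
  have hzp : IsPrimitiveRoot z p := by
    rw [← IsPrimitiveRoot.coe_units_iff, hz]
    exact hζC
  -- the modulus
  obtain ⟨N0, hN0, -, hN0'⟩ := hAR F M ψ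
  have hbase : Gd (art ψ) ({v | (N0 : 𝓞 F) ∈ v.asIdeal} ∩ Set.univ) :=
    Gd.of_cong hN0 fun x hx => hN0' x ⟨fun v hv => hx v trivial hv, hnr _⟩
  obtain ⟨T, ⟨-, k, hk⟩, hTR⟩ := hbase.remove (R := R) fun v hv => by
    have hv' : ¬ Dp p v ∧ vl p v c = 0 := by
      rw [hR, Set.mem_ofPred_eq, not_or, not_not] at hv
      exact hv
    obtain ⟨N, hN, -, hN'⟩ := hG hNRM F M ψ v (unram hB hζ hc hK hv'.1 hv'.2)
    exact ⟨_, Gd.of_cong hN fun x hx => hN' x (hnr _) hx, fun h => h.2 rfl⟩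
  refine ⟨k, fun x hx hxk => ⟨hfv x hx, ?_⟩⟩
  obtain ⟨X, hX⟩ : ∃ X : Fˣ, (X : F) = x := ⟨Units.mk0 x hx, rfl⟩
  have h1 : art ψ (prin X) = 0 := hk X fun v hv => by
    rw [hX]
    apply hxk
    have := hTR hv
    rwa [hR] at this
  have hXR : ∀ v ∈ R, prin X v = 0 := by
    intro v hv
    rw [hR] at hv
    have h2 := val_one_of_close ((hxk v hv).trans_le (exp_le_one _))
    rw [← hX, Pool.Agent.Q125.AR.valuation_eq_exp, ← WithZero.exp_zero, WithZero.exp_inj] at h2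
    omega
  have hfr : ∀ v ∉ R, ψ (frob M v) = z ^ (sy p ζ v c).val := by
    intro v hv
    rw [hR, Set.mem_ofPred_eq, not_or, not_not] at hv
    apply Units.ext
    rw [hψ, frob_root hB hζ hc hr hv.1 hv.2, Units.val_pow_eq_pow_val, hz, map_pow, map_pow]
  have h2 : art ψ (prin X) = (∑ v ∈ (prin X).support, prin X v * ((sy p ζ v c).val : ℤ)) •
      Additive.ofMul z := by
    unfold art
    rw [Finsupp.liftAddHom_apply, Finsupp.sum]
    change _ = (zmultiplesHom (Additive ℂˣ)) (Additive.ofMul z)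
      (∑ v ∈ (prin X).support, prin X v * ((sy p ζ v c).val : ℤ))
    rw [map_sum]
    refine Finset.sum_congr rfl fun v hv => ?_
    have hvR : v ∉ R := fun h => (Finsupp.mem_support_iff.1 hv) (hXR v h)
    change prin X v • Additive.ofMul (ψ (frob M v)) =
      (prin X v * ((sy p ζ v c).val : ℤ)) • Additive.ofMul z
    rw [hfr v hvR, ofMul_pow, mul_smul, natCast_zsmul]
  rw [h2] at h1
  have h3 : z ^ (∑ v ∈ (prin X).support, prin X v * ((sy p ζ v c).val : ℤ)) = 1 := by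
    have := congrArg Additive.toMul h1
    exact this
  rw [hzp.zpow_eq_one_iff_dvd, ← ZMod.intCast_zmod_eq_zero_iff_dvd] at h3
  have h4 : ∑ v ∈ (prin X).support, vl p v x * sy p ζ v c = 0 := by
    rw [← h3]
    push_cast
    refine Finset.sum_congr rfl fun v _ => ?_
    rw [← hX, vl_eq, ZMod.natCast_zmod_val]
  have h5 : ∑ᶠ v : {v : HeightOneSpectrum (𝓞 F) // ¬ (Dp p v ∨ vl p v c ≠ 0)},
      vl p v.1 x * sy p ζ v.1 c = ∑ᶠ v ∈ Rᶜ, vl p v x * sy p ζ v c := by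
    rw [← finsum_set_coe_eq_finsum_mem, hR]
    rfl
  rw [h5]
  refine Eq.trans ?_ h4
  apply finsum_mem_eq_sum_of_inter_support_eq
  ext v
  constructor
  · rintro ⟨hv, hv'⟩
    refine ⟨?_, hv'⟩
    rw [Finset.mem_coe, Finsupp.mem_support_iff]
    intro h0
    apply hv'
    simp only [← hX, vl_eq, h0, Int.cast_zero, zero_mul]
  · rintro ⟨hv, hv'⟩
    refine ⟨fun h => ?_, hv'⟩
    exact (Finsupp.mem_support_iff.1 hv) (hXR v h)

/-- JOB HS1A2 -/
theorem hs1a2 (hBAS : Pool.Agent.Q7.LK.S_BAS) : Pool.Agent.Q283.EN.S_HS1A2 := fun _ _ _ _ _ hi hζ =>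
  hs1a_gen Pool.Agent.Q92.AR.recip Pool.Agent.Q38.EX.nrm Pool.Agent.Q111.EX.good hBAS (no_real_i hi) hζ

end Pool.Agent.Q68.EN
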