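import Pool.Agent.Q285.LK.CPL
import Pool.Agent.Q283.EN.Stm2

/-!
# Project EN (helper283), job LPT: points near the origin
-/

set_option autoImplicit false
set_option linter.unusedSectionVars false

namespace Pool.Agent.Q68.EN

open NumberField IsDedekindDomain Pool.Agent.Q7.LK Pool.Agent.Y682 Pool.Agent.Q285.LK

section

variable {F : Type} [Field F] [NumberField F] (v : HeightOneSpectrum (𝓞 F))

/-- the fixed point -/
theorem exists_fix (a b z : v.adicCompletion F) (ha : vv v a ≤ 1) (hb : vv v b ≤ 1) (hz : vv v z < 1) :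
    ∃ u : v.adicCompletion F, vv v u = 1 ∧ u = 1 + a * z ^ 4 * u ^ 2 + b * z ^ 6 * u ^ 3 := by
  let s : Set (v.adicCompletion F) := {y | ‖y‖ ≤ ‖(1 : v.adicCompletion F)‖}
  have hs : IsComplete s := (isClosed_le continuous_norm continuous_const).isComplete
  let T : v.adicCompletion F → v.adicCompletion F := fun u => 1 + a * z ^ 4 * u ^ 2 + b * z ^ 6 * u ^ 3
  have hmem : ∀ y, y ∈ s ↔ vv v y ≤ 1 := by
    intro y
    change ‖y‖ ≤ ‖(1 : v.adicCompletion F)‖ ↔ _
    rw [norm_le_iff, map_one]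
  have hc4 : vv v (a * z ^ 4) ≤ vv v z := by
    rw [map_mul, map_pow]
    refine (mul_le_of_le_one_left' ha).trans ?_
    rw [pow_succ]
    exact mul_le_of_le_one_left' (pow_le_one' hz.le 3)
  have hc6 : vv v (b * z ^ 6) ≤ vv v z := by
    rw [map_mul, map_pow]
    refine (mul_le_of_le_one_left' hb).trans ?_
    rw [pow_succ]
    exact mul_le_of_le_one_left' (pow_le_one' hz.le 5)
  have hT : ∀ y, vv v y ≤ 1 → vv v (T y - 1) ≤ vv v z := by
    intro y hy
    have e : T y - 1 = a * z ^ 4 * y ^ 2 + b * z ^ 6 * y ^ 3 := by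
      simp only [T]
      ring
    rw [e]
    refine (Valuation.map_add _ _ _).trans (max_le ?_ ?_)
    · rw [map_mul, map_pow (vv v) y]
      exact (mul_le_of_le_one_right' (pow_le_one' hy 2)).trans hc4
    · rw [map_mul, map_pow (vv v) y]
      exact (mul_le_of_le_one_right' (pow_le_one' hy 3)).trans hc6
  have hmaps : Set.MapsTo T s s := by
    intro y hy
    rw [hmem] at hy ⊢
    have e : T y = 1 + (T y - 1) := by ring
    rw [e]
    refine (Valuation.map_add _ _ _).trans (max_le ?_ ?_)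
    · rw [map_one]
    · exact (hT y hy).trans hz.le
  have hcn : ‖z‖ < 1 := by
    rw [← norm_one (α := v.adicCompletion F), ← not_le, norm_le_iff, not_le, map_one]
    exact hz
  have hcon : ContractingWith ⟨‖z‖, norm_nonneg _⟩ (hmaps.restrict T s s) := by
    refine ⟨by exact_mod_cast hcn, ?_⟩
    apply LipschitzWith.of_dist_le_mul
    rintro ⟨y, hy⟩ ⟨x, hx⟩
    change dist (T y) (T x) ≤ ‖z‖ * dist y x
    rw [hmem] at hy hx
    rw [dist_eq_norm, dist_eq_norm, ← norm_mul, norm_le_iff, map_mul]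
    have h3 : T y - T x = a * z ^ 4 * (y ^ 2 - x ^ 2) + b * z ^ 6 * (y ^ 3 - x ^ 3) := by
      simp only [T]
      ring
    rw [h3]
    refine (Valuation.map_add _ _ _).trans (max_le ?_ ?_)
    · rw [map_mul]
      exact mul_le_mul' hc4 (vv_pow_sub v hy hx 2)
    · rw [map_mul]
      exact mul_le_mul' hc6 (vv_pow_sub v hy hx 3)
  have h1s : (1 : v.adicCompletion F) ∈ s := le_refl ‖(1 : v.adicCompletion F)‖
  obtain ⟨u, hus, hu, -⟩ := hcon.exists_fixedPoint' hs hmaps h1s (edist_ne_top _ _)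
  have h2 : T u = u := hu
  rw [hmem] at hus
  refine ⟨u, ?_, h2.symm⟩
  have h4 := hT u hus
  rw [h2] at h4
  have h5 : vv v (u - 1) < vv v (1 : v.adicCompletion F) := by
    rw [map_one]
    exact h4.trans_lt hz
  have h6 := Valuation.map_add_eq_of_lt_right (vv v) h5
  rw [sub_add_cancel, map_one] at h6
  exact h6

end

/-- JOB LPT -/
theorem lpt : Pool.Agent.Q283.EN.S_LPT := by
  intro F _ _ v A B hA hB z hz0 hz
  obtain ⟨u, hu1, hu⟩ := exists_fix v (algebraMap F (v.adicCompletion F) A)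
    (algebraMap F (v.adicCompletion F) B) z (by rw [vv_coe]; exact hA) (by rw [vv_coe]; exact hB) hz
  have hu0 : u ≠ 0 := by
    rintro rfl
    rw [map_zero] at hu1
    exact zero_ne_one hu1
  have hw : z ^ 3 * u ≠ 0 := mul_ne_zero (pow_ne_zero 3 hz0) hu0
  refine ⟨z * (z ^ 3 * u)⁻¹, (z ^ 3 * u)⁻¹, inv_ne_zero hw, rfl, ?_, ?_⟩
  · have h1 : z * (z ^ 3 * u)⁻¹ * z ^ 2 = u⁻¹ := by
      field_simp
    rw [← map_pow, ← map_mul, h1, map_inv₀]
    change (vv v u)⁻¹ = 1
    rw [hu1, inv_one]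
  · field_simp
    linear_combination hu

end Pool.Agent.Q68.EN
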